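import Pool.Agent.H16.ZW.Targets

/-!
Norms of the monomials in `1 + p π ^ (i + 1)` (module BET of zw_modules).
-/

open Filter Topology MvPolynomial

namespace Pool.Agent.H59.ZW

open Pool.Agent.H16.ZW
open Pool.Agent.H12.ZD

variable {p : Nat.Primes}

lemma pk (hp : (p : ℕ) ≠ 2) : PK (p : ℕ) (PadicAlgCl (p : ℕ)) where
  prime := p.2
  odd := hp
  norm_p := by
    have h := v_self p
    rw [v, map_natCast] at h
    exact h

lemma vpow (hPW : T_PW) (hp : (p : ℕ) ≠ 2) {x : Qb} (hx : v p (x - 1) ≤ ((p : ℕ) : ℝ)⁻¹) (n : ℕ) :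
    v p (x ^ n - 1) = v p (n : Qb) * v p (x - 1) := by
  have h := (hPW (p : ℕ) (PadicAlgCl (p : ℕ)) (pk hp)).2.2 (emb p x)
  have h1 : ‖emb p x - 1‖ ≤ ((p : ℕ) : ℝ)⁻¹ := by
    rw [v, map_sub, map_one] at hx
    exact hx
  have h2 := h h1 n
  rw [v, v, v, map_sub, map_sub, map_one, map_pow, map_natCast]
  exact h2

lemma v_eq_one {x : Qb} (hx : v p (x - 1) ≤ ((p : ℕ) : ℝ)⁻¹) : v p x = 1 := by
  have h : v p x = v p 1 := by
    apply v_eq_of_sub_lt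
    rw [v_one]
    exact hx.trans_lt (inv_lt_one_of_one_lt₀ (by exact_mod_cast p.2.one_lt))
  rw [h, v_one]

lemma vzpow (hPW : T_PW) (hp : (p : ℕ) ≠ 2) {x : Qb} (hx : v p (x - 1) ≤ ((p : ℕ) : ℝ)⁻¹) (n : ℤ) :
    v p (x ^ n - 1) = v p (n : Qb) * v p (x - 1) := by
  have h1 := v_eq_one hx
  have hx0 : x ≠ 0 := by
    intro h
    rw [h, v_zero] at h1
    exact zero_ne_one h1
  obtain ⟨m, rfl | rfl⟩ := n.eq_nat_or_neg
  · rw [zpow_natCast, vpow hPW hp hx m, Int.cast_natCast]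
  · rw [zpow_neg, zpow_natCast, Int.cast_neg, v_neg, Int.cast_natCast, ← vpow hPW hp hx m]
    have h2 : (x ^ m)⁻¹ - 1 = -((x ^ m)⁻¹ * (x ^ m - 1)) := by
      field_simp
      ring
    rw [h2, v_neg, v_mul, v_inv, v_pow, h1]
    simp

lemma v_int_eq_one {a : ℤ} (h : ¬ ((p : ℕ) : ℤ) ∣ a) : v p (a : Qb) = 1 := by
  rw [v_intCast]
  apply le_antisymm (Padic.norm_int_le_one a)
  by_contra hlt
  rw [not_le] at hlt
  exact h (Padic.norm_intCast_lt_one_iff.1 hlt)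

lemma v_int_le {a : ℤ} (h : ((p : ℕ) : ℤ) ∣ a) : v p (a : Qb) ≤ ((p : ℕ) : ℝ)⁻¹ := by
  obtain ⟨b, rfl⟩ := h
  rw [Int.cast_mul, v_mul, Int.cast_natCast, v_self]
  have := v_intCast_le p b
  have h0 : (0 : ℝ) ≤ ((p : ℕ) : ℝ)⁻¹ := by positivity
  nlinarith [v_nonneg p (b : Qb)]

lemma prod_lt {N : ℕ} (z : Fin N → Qb) (ρ : ℝ) (h0 : 0 < ρ) (h1 : ρ ≤ 1) (s : Finset (Fin N))
    (h : ∀ i ∈ s, v p (z i) < ρ) : v p (∏ i ∈ s, (1 + z i) - 1) < ρ := by
  classical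
  induction s using Finset.induction_on with
  | empty => simpa using h0
  | insert i s hi ih =>
    rw [Finset.prod_insert hi]
    have ih' := ih fun j hj => h j (Finset.mem_insert_of_mem hj)
    have hz := h i (Finset.mem_insert_self i s)
    have hB : v p (∏ i ∈ s, (1 + z i)) = 1 := by
      have : v p (∏ i ∈ s, (1 + z i)) = v p 1 := by
        apply v_eq_of_sub_lt
        rw [v_one]
        exact ih'.trans_le h1
      rw [this, v_one]
    have e : (1 + z i) * ∏ i ∈ s, (1 + z i) - 1 =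
        (∏ i ∈ s, (1 + z i) - 1) + z i * ∏ i ∈ s, (1 + z i) := by ring
    rw [e]
    apply v_add_lt p ih'
    rw [v_mul, hB, mul_one]
    exact hz

theorem bet (hPW : T_PW) : T_BET := by
  intro p N l π hp hl hN hπ a ha
  have hq0 : (0 : ℝ) < ((p : ℕ) : ℝ)⁻¹ := by
    have : (0 : ℝ) < ((p : ℕ) : ℝ) := by exact_mod_cast p.2.pos
    positivity
  have hq1 : ((p : ℕ) : ℝ)⁻¹ < 1 := inv_lt_one_of_one_lt₀ (by exact_mod_cast p.2.one_lt)
  have hP : v p π ^ l = ((p : ℕ) : ℝ)⁻¹ := by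
    rw [← v_pow, hπ, v_self]
  have hP0 : 0 ≤ v p π := v_nonneg p π
  have hP0' : 0 < v p π := by
    rcases hP0.lt_or_eq with h | h
    · exact h
    · rw [← h, zero_pow hl.ne_zero] at hP
      exact absurd hP hq0.ne
  have hP1 : v p π < 1 := by
    by_contra h
    rw [not_lt] at h
    have := one_le_pow₀ h (n := l)
    rw [hP] at this
    exact absurd this (not_le.2 hq1)
  have hx : ∀ i : Fin N, v p ((1 + ((p : ℕ) : Qb) * π ^ ((i : ℕ) + 1)) - 1) =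
      ((p : ℕ) : ℝ)⁻¹ * v p π ^ ((i : ℕ) + 1) := by
    intro i
    rw [add_sub_cancel_left, v_mul, v_self, v_pow]
  have hx1 : ∀ i : Fin N, v p ((1 + ((p : ℕ) : Qb) * π ^ ((i : ℕ) + 1)) - 1) ≤
      ((p : ℕ) : ℝ)⁻¹ := by
    intro i
    rw [hx]
    have := pow_le_one₀ hP0 hP1.le (n := (i : ℕ) + 1)
    nlinarith
  obtain ⟨i0, hi0, hmin⟩ := WellFounded.has_min
    (wellFounded_lt : WellFounded ((· < ·) : Fin N → Fin N → Prop))
    {i | ¬ ((p : ℕ) : ℤ) ∣ a i} (by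
      by_contra h
      apply ha
      intro i
      by_contra h'
      exact h ⟨i, h'⟩)
  refine ⟨i0, ?_⟩
  set z : Fin N → Qb := fun i => (1 + ((p : ℕ) : Qb) * π ^ ((i : ℕ) + 1)) ^ a i - 1 with hz
  have hvz : ∀ i, v p (z i) = v p (a i : Qb) * (((p : ℕ) : ℝ)⁻¹ * v p π ^ ((i : ℕ) + 1)) := by
    intro i
    rw [hz]
    show v p ((1 + ((p : ℕ) : Qb) * π ^ ((i : ℕ) + 1)) ^ a i - 1) = _
    rw [vzpow hPW hp (hx1 i) (a i), hx]
  set ρ : ℝ := ((p : ℕ) : ℝ)⁻¹ * v p π ^ ((i0 : ℕ) + 1) with hρ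
  have hρ0 : 0 < ρ := by positivity
  have hρ1 : ρ ≤ 1 := by
    have := pow_le_one₀ hP0 hP1.le (n := (i0 : ℕ) + 1)
    rw [hρ]
    nlinarith
  have hz0 : v p (z i0) = ρ := by
    rw [hvz, v_int_eq_one hi0, one_mul]
  have hlt : ∀ i, i ≠ i0 → v p (z i) < ρ := by
    intro i hi
    rw [hvz]
    rcases lt_or_gt_of_ne hi with h | h
    · have hd : ((p : ℕ) : ℤ) ∣ a i := by
        by_contra h'
        exact hmin i h' h
      have h1 := v_int_le hd
      have h2 : ((p : ℕ) : ℝ)⁻¹ * v p π ^ ((i : ℕ) + 1) < v p π ^ ((i0 : ℕ) + 1) := by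
        rw [← hP, ← pow_add]
        apply pow_lt_pow_right_of_lt_one₀ hP0' hP1
        have := i0.2
        omega
      have h3 : 0 ≤ ((p : ℕ) : ℝ)⁻¹ * v p π ^ ((i : ℕ) + 1) := by positivity
      calc v p (a i : Qb) * (((p : ℕ) : ℝ)⁻¹ * v p π ^ ((i : ℕ) + 1))
          ≤ ((p : ℕ) : ℝ)⁻¹ * (((p : ℕ) : ℝ)⁻¹ * v p π ^ ((i : ℕ) + 1)) :=
            mul_le_mul_of_nonneg_right h1 h3
        _ < ρ := by
            rw [hρ]
            exact mul_lt_mul_of_pos_left h2 hq0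
    · have h1 := v_intCast_le p (a i)
      have h2 : v p π ^ ((i : ℕ) + 1) < v p π ^ ((i0 : ℕ) + 1) := by
        apply pow_lt_pow_right_of_lt_one₀ hP0' hP1
        have : (i0 : ℕ) < (i : ℕ) := h
        omega
      have h3 : 0 ≤ ((p : ℕ) : ℝ)⁻¹ * v p π ^ ((i : ℕ) + 1) := by positivity
      calc v p (a i : Qb) * (((p : ℕ) : ℝ)⁻¹ * v p π ^ ((i : ℕ) + 1))
          ≤ 1 * (((p : ℕ) : ℝ)⁻¹ * v p π ^ ((i : ℕ) + 1)) :=
            mul_le_mul_of_nonneg_right h1 h3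
        _ < ρ := by
            rw [one_mul, hρ]
            exact mul_lt_mul_of_pos_left h2 hq0
  have hmon : mon (fun i : Fin N => 1 + ((p : ℕ) : Qb) * π ^ ((i : ℕ) + 1)) a =
      (1 + z i0) * ∏ i ∈ Finset.univ.erase i0, (1 + z i) := by
    rw [Finset.mul_prod_erase _ (fun i => 1 + z i) (Finset.mem_univ i0)]
    apply Finset.prod_congr rfl
    intro i _
    rw [hz]
    ring
  have hB := prod_lt (p := p) z ρ hρ0 hρ1 (Finset.univ.erase i0)
    (fun i hi => hlt i (Finset.ne_of_mem_erase hi))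
  set B := ∏ i ∈ Finset.univ.erase i0, (1 + z i) with hBdef
  have hB1 : v p B = 1 := by
    have : v p B = v p 1 := by
      apply v_eq_of_sub_lt
      rw [v_one]
      exact hB.trans_le hρ1
    rw [this, v_one]
  have hfin : v p ((1 + z i0) * B - 1) = ρ := by
    have h1 : v p ((1 + z i0) * B - 1) = v p (z i0 * B) := by
      apply v_eq_of_sub_lt
      rw [v_mul, hz0, hB1, mul_one]
      have e : (1 + z i0) * B - 1 - z i0 * B = B - 1 := by ring
      rw [e]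
      exact hB
    rw [h1, v_mul, hz0, hB1, mul_one]
  rw [hmon, hfin, hρ, mul_pow, ← pow_mul, mul_comm ((i0 : ℕ) + 1) l, pow_mul, hP, ← pow_add]

end Pool.Agent.H59.ZW
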